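import Pool.Agent.N983.RT.UNQ

set_option autoImplicit false

/-! Part RHS of project RT: bounds for the right-hand side (worker: helper913). -/

namespace Pool.Agent.U913.RT

open Pool.Agent.N983.RT Finset

noncomputable section

theorem W_sub (m k : Wv) : 1 + nsq m ≤ 2 * (1 + nsq k) * (1 + nsq (m - k)) := by
  have h1 : nsq m ≤ 2 * nsq k + 2 * nsq (m - k) := by
    unfold nsq
    rw [Finset.mul_sum, Finset.mul_sum, ← Finset.sum_add_distrib]
    refine Finset.sum_le_sum fun i _ => ?_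
    rw [Pi.sub_apply]
    push_cast
    nlinarith [sq_nonneg ((k i : ℝ) - ((m i : ℝ) - (k i : ℝ)))]
  have h2 := unq_nsq k
  have h3 := unq_nsq (m - k)
  nlinarith [mul_nonneg h2 h3]

theorem a_le {Cs : ℕ → ℝ} {u : Fld} (h : Dcy Cs u) (s : ℕ) (k : Wv) :
    (1 + nsq k) ^ s * unq_a (u k) ≤ 3 * |Cs s| := by
  unfold unq_a
  rw [Finset.mul_sum]
  refine (Finset.sum_le_sum fun j _ => (h s k j).trans (le_abs_self _)).trans ?_
  simp

theorem G_of {Cs : ℕ → ℝ} {u : Fld} (h : Dcy Cs u) : unq_G (3 * |Cs 4|) u := fun k => a_le h 4 k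

theorem prj_le (m : Wv) (a : Fin 3 → ℂ) (j : Fin 3) : ‖prj m a j‖ ≤ 2 * unq_a a := by
  unfold prj
  have h1 : ‖dt a m * (m j : ℂ) / (nsq m : ℂ)‖ ≤ unq_a a := by
    have h2 : ‖dt a m * (m j : ℂ)‖ ≤ unq_a a * nsq m := by
      unfold dt unq_a
      rw [Finset.sum_mul, Finset.sum_mul]
      refine (norm_sum_le _ _).trans (Finset.sum_le_sum fun i _ => ?_)
      rw [norm_mul, norm_mul, mul_assoc]
      refine mul_le_mul_of_nonneg_left ?_ (norm_nonneg _)
      rw [Complex.norm_intCast, Complex.norm_intCast]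
      have h3 : ∀ i, |(m i : ℝ)| ^ 2 ≤ nsq m := fun i => by
        rw [sq_abs]
        exact Finset.single_le_sum (f := fun i => ((m i : ℝ)) ^ 2) (fun _ _ => sq_nonneg _)
          (Finset.mem_univ i)
      nlinarith [h3 i, h3 j, sq_nonneg (|(m i : ℝ)| - |(m j : ℝ)|)]
    rw [norm_div, Complex.norm_real, Real.norm_eq_abs, abs_of_nonneg (unq_nsq m)]
    exact div_le_of_le_mul₀ (unq_nsq m) (unq_a_nonneg a) h2
  calc ‖a j - dt a m * (m j : ℂ) / (nsq m : ℂ)‖ ≤ ‖a j‖ + ‖dt a m * (m j : ℂ) / (nsq m : ℂ)‖ :=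
        norm_sub_le _ _
    _ ≤ unq_a a + unq_a a := add_le_add (unq_le_a a j) h1
    _ = _ := by ring

theorem prj_sub (m : Wv) (a b : Fin 3 → ℂ) (j : Fin 3) :
    prj m a j - prj m b j = prj m (fun i => a i - b i) j := by
  unfold prj
  have h : dt (fun i => a i - b i) m = dt a m - dt b m := by
    unfold dt
    rw [← Finset.sum_sub_distrib]
    exact Finset.sum_congr rfl fun i _ => by ring
  rw [h]
  ring

theorem term_le {Cs : ℕ → ℝ} {g : Wv → Wv → Wv → ℝ} (hg : ∀ k l m, |g k l m| ≤ 1) {u : Fld}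
    (hu : Dcy Cs u) (p : ℕ) (m : Wv) (j : Fin 3) (k : Wv) :
    (1 + nsq m) ^ p * ‖unq_B g u u m j k‖ ≤
      2 ^ p * (3 * |Cs (p + 3)|) * |Cs (p + 1)| * unq_q k := by
  have hW := unq_W m
  have hWk := unq_W k
  have hWl := unq_W (m - k)
  have h0 : (1 + nsq m) ^ p ≤ (2 * (1 + nsq k) * (1 + nsq (m - k))) ^ p :=
    pow_le_pow_left₀ (by linarith) (W_sub m k) p
  have h1 := unq_B_le hg u u m j k
  have h2 : (1 + nsq k) ^ p * unq_a (u k) ≤ 3 * |Cs (p + 3)| * unq_q k := by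
    have h3 := a_le hu (p + 3) k
    have h4 : 0 < (1 + nsq k) ^ 3 := pow_pos (by linarith) 3
    unfold unq_q
    rw [← div_eq_mul_inv, le_div_iff₀ h4]
    calc (1 + nsq k) ^ p * unq_a (u k) * (1 + nsq k) ^ 3
        = (1 + nsq k) ^ (p + 3) * unq_a (u k) := by ring
      _ ≤ _ := h3
  have h5 : (1 + nsq (m - k)) ^ (p + 1) * ‖u (m - k) j‖ ≤ |Cs (p + 1)| :=
    (hu (p + 1) (m - k) j).trans (le_abs_self _)
  calc (1 + nsq m) ^ p * ‖unq_B g u u m j k‖
      ≤ (2 * (1 + nsq k) * (1 + nsq (m - k))) ^ p *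
        (unq_a (u k) * (1 + nsq (m - k)) * ‖u (m - k) j‖) :=
        mul_le_mul h0 h1 (norm_nonneg _) (by positivity)
    _ = 2 ^ p * (((1 + nsq k) ^ p * unq_a (u k)) *
          ((1 + nsq (m - k)) ^ (p + 1) * ‖u (m - k) j‖)) := by
        rw [mul_pow, mul_pow]
        ring
    _ ≤ 2 ^ p * ((3 * |Cs (p + 3)| * unq_q k) * |Cs (p + 1)|) := by
        refine mul_le_mul_of_nonneg_left ?_ (by positivity)
        refine mul_le_mul h2 h5 (by positivity) ?_
        exact mul_nonneg (by positivity) (unq_q_nonneg k)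
    _ = _ := by ring

theorem conv_le (hS : Summable unq_q) {Cs : ℕ → ℝ} {g : Wv → Wv → Wv → ℝ}
    (hg : ∀ k l m, |g k l m| ≤ 1) {u : Fld} (hu : Dcy Cs u) (p : ℕ) (m : Wv) (j : Fin 3) :
    (1 + nsq m) ^ p * ‖conv g u m j‖ ≤
      2 ^ p * (3 * |Cs (p + 3)|) * |Cs (p + 1)| * ∑' k, unq_q k := by
  have hW := unq_W m
  have h1 : (1 + nsq m) ^ p * ‖conv g u m j‖ = ‖∑' k, (((1 + nsq m) ^ p : ℝ) : ℂ) *
      unq_B g u u m j k‖ := by
    rw [tsum_mul_left, norm_mul, Complex.norm_real, Real.norm_eq_abs,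
      abs_of_nonneg (by positivity)]
    rfl
  rw [h1, ← tsum_mul_left]
  refine tsum_of_norm_bounded (hS.mul_left _).hasSum fun k => ?_
  rw [norm_mul, Complex.norm_real, Real.norm_eq_abs, abs_of_nonneg (by positivity)]
  exact term_le hg hu p m j k

theorem rpow_le (m : Wv) (hm : m ≠ 0) (α : ℝ) : nsq m ^ α ≤ (1 + nsq m) ^ ⌈|α|⌉₊ := by
  have h1 : 1 ≤ nsq m := by
    obtain ⟨i, hi⟩ : ∃ i, m i ≠ 0 := by
      by_contra h
      push Not at h
      exact hm (funext h)
    have h2 : ((m i : ℝ)) ^ 2 ≤ nsq m :=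
      Finset.single_le_sum (f := fun i => ((m i : ℝ)) ^ 2) (fun _ _ => sq_nonneg _)
        (Finset.mem_univ i)
    have h3 : (1 : ℝ) ≤ ((m i : ℝ)) ^ 2 := by
      have h4 : 1 ≤ (m i) ^ 2 := by
        have := pow_pos (abs_pos.2 hi) 2
        rw [sq_abs] at this
        omega
      exact_mod_cast h4
    linarith
  calc nsq m ^ α ≤ nsq m ^ (|α|) := Real.rpow_le_rpow_of_exponent_le h1 (le_abs_self α)
    _ ≤ nsq m ^ ((⌈|α|⌉₊ : ℕ) : ℝ) := Real.rpow_le_rpow_of_exponent_le h1 (Nat.le_ceil _)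
    _ = nsq m ^ ⌈|α|⌉₊ := Real.rpow_natCast _ _
    _ ≤ _ := pow_le_pow_left₀ (unq_nsq m) (by linarith) _

theorem t_RHS : S_RHS := by
  intro hS0 ν α Cs
  have hS : Summable unq_q := hS0
  obtain ⟨σ, hσ⟩ : ∃ σ : ℝ, σ = ∑' k, unq_q k := ⟨_, rfl⟩
  have hσ0 : 0 ≤ σ := by rw [hσ]; exact tsum_nonneg unq_q_nonneg
  constructor
  · intro p
    refine ⟨|ν| * |Cs (p + ⌈|α|⌉₊)| +
      2 * (3 * (2 ^ p * (3 * |Cs (p + 3)|) * |Cs (p + 1)| * σ)), ?_⟩
    intro g hg u hu m hm j
    have hW := unq_W m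
    unfold rhs
    have h1 : (1 + nsq m) ^ p * ‖-((ν * nsq m ^ α : ℝ) : ℂ) * u m j‖ ≤
        |ν| * |Cs (p + ⌈|α|⌉₊)| := by
      rw [norm_mul, norm_neg, Complex.norm_real, Real.norm_eq_abs, abs_mul,
        abs_of_nonneg (Real.rpow_nonneg (unq_nsq m) α)]
      have h2 := hu (p + ⌈|α|⌉₊) m j
      have h3 := rpow_le m hm α
      calc (1 + nsq m) ^ p * (|ν| * nsq m ^ α * ‖u m j‖)
          = |ν| * ((1 + nsq m) ^ p * nsq m ^ α * ‖u m j‖) := by ring
        _ ≤ |ν| * ((1 + nsq m) ^ p * (1 + nsq m) ^ ⌈|α|⌉₊ * ‖u m j‖) := by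
            gcongr
        _ = |ν| * ((1 + nsq m) ^ (p + ⌈|α|⌉₊) * ‖u m j‖) := by rw [pow_add]
        _ ≤ |ν| * |Cs (p + ⌈|α|⌉₊)| :=
            mul_le_mul_of_nonneg_left (h2.trans (le_abs_self _)) (abs_nonneg _)
    have h4 : (1 + nsq m) ^ p * ‖Complex.I * prj m (conv g u m) j‖ ≤
        2 * (3 * (2 ^ p * (3 * |Cs (p + 3)|) * |Cs (p + 1)| * σ)) := by
      rw [norm_mul, Complex.norm_I, one_mul]
      have h5 := prj_le m (conv g u m) j
      have h6 : (1 + nsq m) ^ p * unq_a (conv g u m) ≤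
          3 * (2 ^ p * (3 * |Cs (p + 3)|) * |Cs (p + 1)| * σ) := by
        unfold unq_a
        rw [Finset.mul_sum]
        have h7 : ∀ i ∈ (Finset.univ : Finset (Fin 3)), (1 + nsq m) ^ p * ‖conv g u m i‖ ≤
            2 ^ p * (3 * |Cs (p + 3)|) * |Cs (p + 1)| * σ := fun i _ => by
          rw [hσ]
          exact conv_le hS hg hu p m i
        refine (Finset.sum_le_sum h7).trans (le_of_eq ?_)
        simp
      calc (1 + nsq m) ^ p * ‖prj m (conv g u m) j‖
          ≤ (1 + nsq m) ^ p * (2 * unq_a (conv g u m)) :=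
            mul_le_mul_of_nonneg_left h5 (by positivity)
        _ = 2 * ((1 + nsq m) ^ p * unq_a (conv g u m)) := by ring
        _ ≤ _ := by linarith
    calc (1 + nsq m) ^ p * ‖-((ν * nsq m ^ α : ℝ) : ℂ) * u m j -
          Complex.I * prj m (conv g u m) j‖
        ≤ (1 + nsq m) ^ p * (‖-((ν * nsq m ^ α : ℝ) : ℂ) * u m j‖ +
          ‖Complex.I * prj m (conv g u m) j‖) :=
          mul_le_mul_of_nonneg_left (norm_sub_le _ _) (by positivity)
      _ = (1 + nsq m) ^ p * ‖-((ν * nsq m ^ α : ℝ) : ℂ) * u m j‖ +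
          (1 + nsq m) ^ p * ‖Complex.I * prj m (conv g u m) j‖ := by ring
      _ ≤ _ := add_le_add h1 h4
  · intro m hm
    refine ⟨|ν| * nsq m ^ α + 2 * (3 * ((2 * (1 + nsq m) * (3 * |Cs 1|) + 3 * |Cs 1|) * σ)), ?_⟩
    intro g hg u v hu hv δ hδ j
    have hW := unq_W m
    have hδ0 : 0 ≤ δ := le_trans
      (mul_nonneg (pow_nonneg (by linarith [unq_W 0]) 3) (norm_nonneg _)) (hδ 0 0)
    have hGu := G_of hu
    have hGv := G_of hv
    have hw : Dcy (fun s => 2 * |Cs s|) (u - v) := by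
      intro s k i
      have h4 : ‖(u - v) k i‖ ≤ ‖u k i‖ + ‖v k i‖ := norm_sub_le _ _
      have h5 := (hu s k i).trans (le_abs_self _)
      have h6 := (hv s k i).trans (le_abs_self _)
      have h7 : 0 ≤ (1 + nsq k) ^ s := pow_nonneg (by linarith [unq_W k]) s
      calc (1 + nsq k) ^ s * ‖(u - v) k i‖ ≤ (1 + nsq k) ^ s * (‖u k i‖ + ‖v k i‖) :=
            mul_le_mul_of_nonneg_left h4 h7
        _ = (1 + nsq k) ^ s * ‖u k i‖ + (1 + nsq k) ^ s * ‖v k i‖ := by ring
        _ ≤ |Cs s| + |Cs s| := add_le_add h5 h6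
        _ = 2 * |Cs s| := by ring
    have hGw := G_of hw
    obtain ⟨D, hD⟩ : ∃ D : ℝ, D = 6 * |Cs 4| := ⟨_, rfl⟩
    have mono : ∀ {D' : ℝ} {x : Fld}, unq_G D' x → D' ≤ D → unq_G D x :=
      fun h h' k => (h k).trans h'
    have hGu' : unq_G D u := mono hGu (by rw [hD]; nlinarith [abs_nonneg (Cs 4)])
    have hGv' : unq_G D v := mono hGv (by rw [hD]; nlinarith [abs_nonneg (Cs 4)])
    have hGw' : unq_G D (u - v) := mono hGw (by
      rw [hD]
      simp only [abs_mul, abs_abs, Nat.abs_ofNat]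
      linarith)
    -- the difference
    have hwq : ∀ k i, ‖(u - v) k i‖ ≤ δ * unq_q k := by
      intro k i
      have h4 : 0 < (1 + nsq k) ^ 3 := pow_pos (by linarith [unq_W k]) 3
      unfold unq_q
      rw [← div_eq_mul_inv, le_div_iff₀ h4, mul_comm]
      exact hδ k i
    have hwa : ∀ k, unq_a ((u - v) k) ≤ 3 * δ * unq_q k := by
      intro k
      unfold unq_a
      refine (Finset.sum_le_sum fun i _ => hwq k i).trans ?_
      simp
      linarith
    have hB1 : ∀ i l, ‖unq_B g u (u - v) m i (m - l)‖ ≤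
        2 * (1 + nsq m) * (3 * |Cs 1|) * δ * unq_q l := by
      intro i l
      refine (unq_B_le hg u (u - v) m i (m - l)).trans ?_
      rw [sub_sub_cancel]
      have h1 : 1 + nsq l ≤ 2 * (1 + nsq m) * (1 + nsq (m - l)) := by
        have h2 := W_sub l m
        have h3 : nsq (l - m) = nsq (m - l) := by
          unfold nsq
          refine Finset.sum_congr rfl fun i _ => ?_
          rw [Pi.sub_apply, Pi.sub_apply]
          push_cast
          ring
        rwa [h3] at h2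
      have h4 := a_le hu 1 (m - l)
      rw [pow_one] at h4
      have h5 := unq_a_nonneg (u (m - l))
      have h6 := unq_W (m - l)
      calc unq_a (u (m - l)) * (1 + nsq l) * ‖(u - v) l i‖
          ≤ unq_a (u (m - l)) * (2 * (1 + nsq m) * (1 + nsq (m - l))) * (δ * unq_q l) := by
            refine mul_le_mul (mul_le_mul_of_nonneg_left h1 h5) (hwq l i) (norm_nonneg _) ?_
            positivity
        _ = 2 * (1 + nsq m) * ((1 + nsq (m - l)) * unq_a (u (m - l))) * (δ * unq_q l) := by ring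
        _ ≤ 2 * (1 + nsq m) * (3 * |Cs 1|) * (δ * unq_q l) := by
            refine mul_le_mul_of_nonneg_right ?_ (mul_nonneg hδ0 (unq_q_nonneg l))
            exact mul_le_mul_of_nonneg_left h4 (by linarith)
        _ = _ := by ring
    have hB2 : ∀ i k, ‖unq_B g (u - v) v m i k‖ ≤ (3 * |Cs 1|) * δ * unq_q k := by
      intro i k
      refine (unq_B_le hg (u - v) v m i k).trans ?_
      have h1 := (hv 1 (m - k) i).trans (le_abs_self _)
      rw [pow_one] at h1
      have h2 := unq_W (m - k)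
      calc unq_a ((u - v) k) * (1 + nsq (m - k)) * ‖v (m - k) i‖
          = unq_a ((u - v) k) * ((1 + nsq (m - k)) * ‖v (m - k) i‖) := by ring
        _ ≤ (3 * δ * unq_q k) * |Cs 1| := by
            refine mul_le_mul (hwa k) h1 (by positivity) ?_
            exact mul_nonneg (by positivity) (unq_q_nonneg k)
        _ = _ := by ring
    have hc : ∀ i, ‖conv g u m i - conv g v m i‖ ≤
        (2 * (1 + nsq m) * (3 * |Cs 1|) + 3 * |Cs 1|) * σ * δ := by
      intro i
      rw [unq_conv_sub hS hg hGu' hGv' hGw' m i]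
      have h1 : ‖∑' l, unq_B g u (u - v) m i (m - l)‖ ≤
          2 * (1 + nsq m) * (3 * |Cs 1|) * δ * σ := by
        rw [hσ, ← tsum_mul_left]
        exact tsum_of_norm_bounded (hS.mul_left _).hasSum fun l => hB1 i l
      have h2 : ‖∑' k, unq_B g (u - v) v m i k‖ ≤ (3 * |Cs 1|) * δ * σ := by
        rw [hσ, ← tsum_mul_left]
        exact tsum_of_norm_bounded (hS.mul_left _).hasSum fun k => hB2 i k
      refine (norm_add_le _ _).trans ((add_le_add h1 h2).trans (le_of_eq ?_))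
      ring
    have hp : ‖prj m (conv g u m) j - prj m (conv g v m) j‖ ≤
        2 * (3 * ((2 * (1 + nsq m) * (3 * |Cs 1|) + 3 * |Cs 1|) * σ * δ)) := by
      rw [prj_sub]
      refine (prj_le m _ j).trans ?_
      refine mul_le_mul_of_nonneg_left ?_ zero_le_two
      unfold unq_a
      refine (Finset.sum_le_sum fun i _ => hc i).trans (le_of_eq ?_)
      simp
    have hu1 : ‖u m j - v m j‖ ≤ δ := by
      have h1 := hδ m j
      have h2 : 1 ≤ (1 + nsq m) ^ 3 := one_le_pow₀ hW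
      have h3 := norm_nonneg (u m j - v m j)
      nlinarith
    have e : rhs g ν α u m j - rhs g ν α v m j = -((ν * nsq m ^ α : ℝ) : ℂ) * (u m j - v m j) -
        Complex.I * (prj m (conv g u m) j - prj m (conv g v m) j) := by
      unfold rhs
      ring
    rw [e]
    have h1 : ‖-((ν * nsq m ^ α : ℝ) : ℂ) * (u m j - v m j)‖ ≤ |ν| * nsq m ^ α * δ := by
      rw [norm_mul, norm_neg, Complex.norm_real, Real.norm_eq_abs, abs_mul,
        abs_of_nonneg (Real.rpow_nonneg (unq_nsq m) α)]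
      exact mul_le_mul_of_nonneg_left hu1
        (mul_nonneg (abs_nonneg _) (Real.rpow_nonneg (unq_nsq m) α))
    have h2 : ‖Complex.I * (prj m (conv g u m) j - prj m (conv g v m) j)‖ ≤
        2 * (3 * ((2 * (1 + nsq m) * (3 * |Cs 1|) + 3 * |Cs 1|) * σ * δ)) := by
      rw [norm_mul, Complex.norm_I, one_mul]
      exact hp
    refine (norm_sub_le _ _).trans ((add_le_add h1 h2).trans (le_of_eq ?_))
    ring

end

end Pool.Agent.U913.RT
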